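import Pool.Agent.H165R4.CU.Fin
import Pool.Agent.H165R4.CU.AC
import Pool.Agent.H165R4.CU.Attr
import Pool.Agent.H165R4.CU.Bd
import Pool.Agent.H165R4.CU.Bij
import Pool.Agent.H165R4.CU.Birk
import Pool.Agent.H165R4.CU.Der
import Pool.Agent.H165R4.CU.Diss
import Pool.Agent.H165R4.CU.Dom
import Pool.Agent.H165R4.CU.Ergb
import Pool.Agent.H165R4.CU.Int
import Pool.Agent.H165R4.CU.Iter
import Pool.Agent.H165R4.CU.Lift
import Pool.Agent.H165R4.CU.Mu
import Pool.Agent.H165R4.CU.ND1
import Pool.Agent.H165R4.CU.ND2
import Pool.Agent.H165R4.CU.ND3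
import Pool.Agent.H165R4.CU.Split
import Pool.Agent.H165R4.CU.St
import Pool.Agent.H165R4.CU.Trap
import Pool.Agent.H331R3.CU.Exp

/-!
# MP_40f8bf_an, Q2: a dissipative example

A smooth diffeomorphism of the three-torus, with no finite invariant measure equivalent to Lebesgue
measure, and an attracting set with a stable bundle and a two-dimensional center-unstable bundle
without dominated subsplitting, supporting an SRB measure with one positive and one negative
exponent along the center-unstable bundle. The definitions are those of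
`Pool.Agent.H165R4.CU.Stmts`.
-/

set_option autoImplicit false

open Set MeasureTheory

namespace Pool.Agent.Results.MP_40f8bf_an.DissipativeExample

open Pool.Agent.H165R4.CU

theorem result :
    ∃ (f : T3 → T3) (F : V3 → V3) (Λ : Set T3) (Es Ec : T3 → Submodule ℝ V3) (μ : Measure T3),
      IsDiffeo f F ∧ IsDissipative f ∧ IsAttractingSet f Λ ∧ Λ ≠ univ ∧
      HasStableCenterUnstable f F Λ Es Ec ∧
      IsProbabilityMeasure μ ∧ Ergodic f μ ∧ μ Λᶜ = 0 ∧ μ.support ⊆ Λ ∧
      HasACConditionals f μ ∧ HasExponents F μ Ec ∧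
      ¬ HasDominatedSubsplitting f F Λ Ec ∧ ¬ HasDominatedSubsplitting f F μ.support Ec :=
  final Lift174.taskLift Der.taskDer taskBd BijN.taskBij taskTrap taskAttr taskDiss Ergb.taskErg
    Mu.taskMu IterT.taskIter taskInt Birk.taskBirk
    (Pool.Agent.H331R3.CU.taskExp_of Der.taskDer) taskAC taskSt taskSplit taskDom
    (ND1.taskND1_of Der.taskDer) taskND2 ND3.taskND3

end Pool.Agent.Results.MP_40f8bf_an.DissipativeExample
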